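import Pool.Agent.helper92.ISO.SpecC

set_option autoImplicit false

open Filter Topology

namespace Pool.Agent.ISO

open Pool.Agent.PB

/-- `encW j _` determines the mode. -/
theorem WTC_inj {M R w : ℕ} (K : Fin M → Finset (Fin R)) (u : Fin M → Fin w → Bool) :
    Function.Injective fun j : Fin R => encW j (zs K u j) := by
  intro j j' h
  have h1 := congrFun h (Fin.castAdd (M * w) j)
  simp only [encW, Fin.append_left] at h1
  by_contra hne
  rw [decide_eq_false hne] at h1
  simp at h1

/-- The witnesses of `enc N X`. -/
theorem WTC_set (hL : LVW_stmt) {n w M R N : ℕ} (f : BF (n + w)) (h : M * n ≤ N) (K : Fin M → Finset (Fin R))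
    (X : Fin M → Fin n → Bool) (u : Fin M → Fin w → Bool) (e0 : Fin M)
    (hu : ∀ e, e ≠ e0 → ∀ y, f (Fin.append (X e) y) = true ↔ y = u e)
    (h0 : ∀ y, f (Fin.append (X e0) y) = false) (Y : Fin (R + M * w) → Bool) :
    listV f N h K (Fin.append (enc N X) Y) = true ↔ ∃ j ∈ K e0, Y = encW j (zs K u j) := by
  rw [hL]
  constructor
  · rintro ⟨j, z, rfl, hz⟩
    have hj : j ∈ K e0 := by
      rcases hz e0 with h1 | h1
      · exact h1.1
      · rw [h0] at h1
        exact absurd h1.2 (by simp)
    refine ⟨j, hj, ?_⟩
    have hzz : z = zs K u j := by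
      funext e
      unfold zs
      rcases hz e with h1 | h1
      · rw [if_pos h1.1, h1.2]
      · rw [if_neg h1.1]
        by_cases he : e = e0
        · subst he
          exact absurd hj h1.1
        · exact (hu e he _).mp h1.2
    rw [hzz]
  · rintro ⟨j, hj, rfl⟩
    refine ⟨j, zs K u j, rfl, ?_⟩
    intro e
    by_cases he : j ∈ K e
    · left
      refine ⟨he, ?_⟩
      unfold zs
      rw [if_pos he]
    · right
      refine ⟨he, ?_⟩
      have hne : e ≠ e0 := by
        rintro rfl
        exact he hj
      rw [hu e hne]
      unfold zs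
      rw [if_neg he]

theorem WTC_proof (hL : LVW_stmt) : WTC_stmt := by
  intro n w M R N f h K X u e0 hu h0
  have hset := WTC_set hL f h K X u e0 hu h0
  constructor
  · unfold wit
    have h1 : (Finset.univ.filter fun y : Fin (R + M * w) → Bool =>
        listV f N h K (Fin.append (enc N X) y) = true) = (K e0).image fun j => encW j (zs K u j) := by
      ext Y
      rw [Finset.mem_filter, Finset.mem_image]
      simp only [Finset.mem_univ, true_and]
      rw [hset Y]
      constructor
      · rintro ⟨j, hj, rfl⟩
        exact ⟨j, hj, rfl⟩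
      · rintro ⟨j, hj, rfl⟩
        exact ⟨j, hj, rfl⟩
    rw [h1, Finset.card_image_of_injective _ (WTC_inj K u)]
  · intro W hW
    unfold wit
    have h1 : (Finset.univ.filter fun y : Fin (R + M * w) → Bool =>
        W (Fin.append (enc N X) y) = true) =
        ((K e0).filter fun j => W (Fin.append (enc N X) (encW j (zs K u j))) = true).image
          fun j => encW j (zs K u j) := by
      ext Y
      rw [Finset.mem_filter, Finset.mem_image]
      simp only [Finset.mem_univ, true_and, Finset.mem_filter]
      constructor
      · intro hY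
        obtain ⟨j, hj, rfl⟩ := (hset Y).mp (hW _ hY)
        exact ⟨j, ⟨hj, hY⟩, rfl⟩
      · rintro ⟨j, ⟨_, hj⟩, rfl⟩
        exact hj
    rw [h1, Finset.card_image_of_injective _ (WTC_inj K u)]

end Pool.Agent.ISO
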